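import Pool.Agent.Lib.MP_ca0971_gt.St
import Pool.Agent.Lib.MP_ca0971_gt.Mf.Main

/-!
# MP_ca0971_gt: from the internal form `Mf.NotQ1` to the form of the statement

The definitions of `St.lean` are those of `Mf/Defs.lean` with a named model space (`St.E3` is
`EuclideanSpace ℝ (Fin 3)` by definition) and 1-forms with values in linear maps.
-/

set_option autoImplicit false

namespace Pool.Agent.Lib.MP_ca0971_gt.Fn

open Set Metric
open scoped Manifold ContDiff

variable {M : Type} [TopologicalSpace M]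

/-- The same charted space. -/
@[reducible] def cs (c : ChartedSpace Mf.E3 M) : ChartedSpace St.E3 M := c

/-- The same 1-form. -/
noncomputable def form (c : ChartedSpace Mf.E3 M) (α : @Mf.OneForm M _ c) : @St.OneForm M _ (cs c) :=
  @St.OneForm.mk M _ (cs c) (fun e y => (α.loc e y).toLinearMap)
    (fun e he _ => ContDiffOn.clm_apply (α.smooth e he) contDiffOn_const)
    (fun e he e' he' x hx v => congrArg (fun L => L v) (α.compat e he e' he' x hx))

/-- The same vector field. -/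
noncomputable def vf (c : ChartedSpace Mf.E3 M) (Z : @Mf.VField M _ c) : @St.VField M _ (cs c) :=
  @St.VField.mk M _ (cs c) Z.loc Z.smooth Z.compat

theorem wed_eq {U : Set Mf.E3} (hU : IsOpen U) {a : Mf.E3 → (Mf.E3 →L[ℝ] ℝ)} (ha : ContDiffOn ℝ ∞ a U)
    {y : Mf.E3} (hy : y ∈ U) : St.wed (fun z => (a z).toLinearMap) y = Mf.wed a y := by
  have hd : DifferentiableAt ℝ a y :=
    (ha.contDiffAt (hU.mem_nhds hy)).differentiableAt (by simp)
  have h1 : ∀ u v : Mf.E3, fderiv ℝ (fun z => a z v) y u = fderiv ℝ a y u v := by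
    intro u v
    have h2 : HasFDerivAt (fun z => a z v) ((fderiv ℝ a y).flip v) y := by
      have h3 := hd.hasFDerivAt.clm_apply (hasFDerivAt_const v y)
      refine h3.congr_fderiv ?_
      ext w
      simp
    rw [h2.fderiv]
    rfl
  have h4 : ∀ u v : Mf.E3, St.dext (fun z => (a z).toLinearMap) y u v =
      fderiv ℝ a y u v - fderiv ℝ a y v u := by
    intro u v
    rw [← h1 u v, ← h1 v u]
    rfl
  have h5 : ∀ i : Fin 3, St.bv i = Mf.bv i := fun i => rfl
  unfold St.wed Mf.wed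
  rw [h4, h4, h4]
  rfl

theorem tight (c : ChartedSpace Mf.E3 M) (α : @Mf.OneForm M _ c) (h : @Mf.Tight M _ c α) :
    @St.Tight M _ (cs c) (form c α) := by
  let _ := cs c
  intro f hf
  exact h f ⟨hf.smooth, hf.inj, hf.imm, hf.bd⟩

theorem irr (c : ChartedSpace Mf.E3 M) (h : @St.Irreducible M _ (cs c)) : @Mf.Irreducible M _ c := by
  let _ := cs c
  intro j hj
  obtain ⟨g, hg, he⟩ := h j ⟨hj.smooth, hj.inj, hj.imm⟩
  exact ⟨g, ⟨hg.smooth, hg.inj, hg.imm⟩, he⟩

theorem main :
    ∃ (M : Type) (_ : TopologicalSpace M) (_ : ChartedSpace St.E3 M),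
      IsManifold 𝓘(ℝ, St.E3) ∞ M ∧ CompactSpace M ∧ T2Space M ∧ SecondCountableTopology M ∧
      ConnectedSpace M ∧ St.OrientedAtlas M ∧
      (∃ αm αp : St.OneForm M, St.TightPositivePair αm αp) ∧ ¬ St.Irreducible M := by
  obtain ⟨M, ts, c, h1, h2, h3, h4, h5, h6, ⟨αm, αp, hp⟩, hirr⟩ := Mf.notQ1
  refine ⟨M, ts, cs c, h1, h2, h3, h4, h5, h6, ⟨form c αm, form c αp, ?_⟩, fun h => hirr (irr c h)⟩
  obtain ⟨Z, hZ⟩ := hp.transverse
  refine @St.TightPositivePair.mk M ts (cs c) _ _ ?_ ?_ ⟨vf c Z, hZ⟩ (tight c αm hp.tight_neg)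
    (tight c αp hp.tight_pos)
  · intro e he y hy
    have h := hp.neg e he y hy
    rw [← wed_eq e.open_target (αm.smooth e he) hy] at h
    exact h
  · intro e he y hy
    have h := hp.pos e he y hy
    rw [← wed_eq e.open_target (αp.smooth e he) hy] at h
    exact h

end Pool.Agent.Lib.MP_ca0971_gt.Fn
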