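import Mathlib

/-!
# MP_ca0971_gt: tight positive contact pairs and irreducibility, the definitions of the statement

`M` is a charted space modelled on `E3`, Euclidean `R^3`, with smooth coordinate changes. Tensor fields
are given by their local expressions in the charts of the atlas together with the transformation rule.
-/

set_option autoImplicit false

namespace Pool.Agent.Lib.MP_ca0971_gt.St

open Set Metric
open scoped Manifold ContDiff

/-- The model space, Euclidean `R^3`. -/
def E3 : Type := EuclideanSpace ℝ (Fin 3)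

/-- The norm of `EuclideanSpace ℝ (Fin 3)`. -/
noncomputable instance normE3 : NormedAddCommGroup E3 :=
  (inferInstance : NormedAddCommGroup (EuclideanSpace ℝ (Fin 3)))

/-- The inner product of `EuclideanSpace ℝ (Fin 3)`. -/
noncomputable instance innerE3 : InnerProductSpace ℝ E3 :=
  (inferInstance : InnerProductSpace ℝ (EuclideanSpace ℝ (Fin 3)))

/-- The normed space `EuclideanSpace ℝ (Fin 3)`. -/
noncomputable instance spaceE3 : NormedSpace ℝ E3 := inferInstance

/-- The addition of `EuclideanSpace ℝ (Fin 3)`. -/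
noncomputable instance grpE3 : AddCommGroup E3 := inferInstance

/-- The topology of `EuclideanSpace ℝ (Fin 3)`. -/
noncomputable instance topE3 : TopologicalSpace E3 := inferInstance

/-- The scalar multiplication of `EuclideanSpace ℝ (Fin 3)`. -/
noncomputable instance modE3 : Module ℝ E3 := inferInstance

/-- The coordinate vectors of the model space. -/
noncomputable def bv (i : Fin 3) : E3 := (EuclideanSpace.single i (1 : ℝ) : EuclideanSpace ℝ (Fin 3))

section
variable {M : Type} [TopologicalSpace M]

/-- The derivative at `y` of the coordinate change from the chart `e` to the chart `e'`. -/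
noncomputable def dtrans (e e' : OpenPartialHomeomorph M E3) (y : E3) : E3 →L[ℝ] E3 :=
  fderiv ℝ (e' ∘ e.symm) y

end

section
variable (M : Type) [TopologicalSpace M] [ChartedSpace E3 M]

/-- `M` is oriented by its atlas: all coordinate changes have positive Jacobian determinant. -/
def OrientedAtlas : Prop :=
  ∀ e ∈ atlas E3 M, ∀ e' ∈ atlas E3 M, ∀ x ∈ e.source ∩ e'.source, 0 < (dtrans e e' (e x)).det

/-- A smooth 1-form on `M`: for every chart `e` of the atlas a smooth 1-form `loc e` on the open set
`e.target` of the model space, with the transformation rule under coordinate changes. -/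
structure OneForm where
  loc : OpenPartialHomeomorph M E3 → E3 → (E3 →ₗ[ℝ] ℝ)
  smooth : ∀ e ∈ atlas E3 M, ∀ v, ContDiffOn ℝ ∞ (fun y => loc e y v) e.target
  compat : ∀ e ∈ atlas E3 M, ∀ e' ∈ atlas E3 M, ∀ x ∈ e.source ∩ e'.source, ∀ v,
    loc e (e x) v = loc e' (e' x) (dtrans e e' (e x) v)

/-- A smooth vector field on `M`. -/
structure VField where
  loc : OpenPartialHomeomorph M E3 → E3 → E3
  smooth : ∀ e ∈ atlas E3 M, ContDiffOn ℝ ∞ (loc e) e.target
  compat : ∀ e ∈ atlas E3 M, ∀ e' ∈ atlas E3 M, ∀ x ∈ e.source ∩ e'.source,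
    loc e' (e' x) = dtrans e e' (e x) (loc e (e x))

end

/-- The exterior derivative of the 1-form `a` of the model space on constant vectors:
`da (u, v) = u (a (v)) - v (a (u))`. -/
noncomputable def dext (a : E3 → (E3 →ₗ[ℝ] ℝ)) (y u v : E3) : ℝ :=
  fderiv ℝ (fun z => a z v) y u - fderiv ℝ (fun z => a z u) y v

/-- The coefficient of `a ∧ da` with respect to the standard volume form of the model space. -/
noncomputable def wed (a : E3 → (E3 →ₗ[ℝ] ℝ)) (y : E3) : ℝ :=
  a y (bv 0) * dext a y (bv 1) (bv 2) + a y (bv 1) * dext a y (bv 2) (bv 0) +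
    a y (bv 2) * dext a y (bv 0) (bv 1)

section
variable {M : Type} [TopologicalSpace M] [ChartedSpace E3 M]

/-- `ker α` is a positive (cooriented) contact structure: `α ∧ dα > 0` with respect to the orientation
given by the atlas. -/
def PosContact (α : OneForm M) : Prop :=
  ∀ e ∈ atlas E3 M, ∀ y ∈ e.target, 0 < wed (α.loc e) y

/-- `ker α` is a negative (cooriented) contact structure: `α ∧ dα < 0`. -/
def NegContact (α : OneForm M) : Prop :=
  ∀ e ∈ atlas E3 M, ∀ y ∈ e.target, wed (α.loc e) y < 0

/-- `f` is smooth on the open set `U` of the normed space `F`. -/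
def SmoothMapOn {F : Type} [NormedAddCommGroup F] [NormedSpace ℝ F] (f : F → M) (U : Set F) : Prop :=
  ContinuousOn f U ∧ ∀ e ∈ atlas E3 M, ContDiffOn ℝ ∞ (e ∘ f) (U ∩ f ⁻¹' e.source)

/-- `f` (restricted to the closed unit disc) is an overtwisted disc for `ker α`: it is smooth on a
neighbourhood of the closed unit disc, injective and immersive on the closed disc, the boundary is
tangent to `ker α`, and EITHER the tangent plane of the disc is `ker α` at every point of the boundary, OR
it is different from `ker α` at every point of the boundary (both usual forms of the definition). -/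
structure OTDisc (α : OneForm M) (f : ℂ → M) : Prop where
  smooth : ∃ U : Set ℂ, IsOpen U ∧ closedBall (0 : ℂ) 1 ⊆ U ∧ SmoothMapOn f U
  inj : InjOn f (closedBall (0 : ℂ) 1)
  imm : ∀ p ∈ closedBall (0 : ℂ) 1, ∀ e ∈ atlas E3 M, f p ∈ e.source →
    Function.Injective (fderiv ℝ (e ∘ f) p)
  bd : (∀ p ∈ sphere (0 : ℂ) 1, ∀ e ∈ atlas E3 M, f p ∈ e.source →
      ∀ u, α.loc e (e (f p)) (fderiv ℝ (e ∘ f) p u) = 0) ∨
    (∀ p ∈ sphere (0 : ℂ) 1, ∀ e ∈ atlas E3 M, f p ∈ e.source →
      α.loc e (e (f p)) (fderiv ℝ (e ∘ f) p (Complex.I * p)) = 0 ∧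
        ∃ u, α.loc e (e (f p)) (fderiv ℝ (e ∘ f) p u) ≠ 0)

/-- `ker α` is tight: it contains no overtwisted disc. -/
def Tight (α : OneForm M) : Prop := ∀ f : ℂ → M, ¬ OTDisc α f

/-- `(ker αm, ker αp)` is a tight positive contact pair: `ker αm` is a negative and `ker αp` a positive
contact structure, there is a vector field (positively) transverse to both, and both are tight. -/
structure TightPositivePair (αm αp : OneForm M) : Prop where
  neg : NegContact αm
  pos : PosContact αp
  transverse : ∃ Z : VField M, ∀ e ∈ atlas E3 M, ∀ y ∈ e.target,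
    0 < αm.loc e y (Z.loc e y) ∧ 0 < αp.loc e y (Z.loc e y)
  tight_neg : Tight αm
  tight_pos : Tight αp

/-- `j` restricted to the unit sphere is a smoothly embedded 2-sphere. -/
structure EmbSphere (j : E3 → M) : Prop where
  smooth : ∃ U : Set E3, IsOpen U ∧ sphere (0 : E3) 1 ⊆ U ∧ SmoothMapOn j U
  inj : InjOn j (sphere (0 : E3) 1)
  imm : ∀ p ∈ sphere (0 : E3) 1, ∀ e ∈ atlas E3 M, j p ∈ e.source →
    ∀ u : E3, inner ℝ p u = 0 → fderiv ℝ (e ∘ j) p u = 0 → u = 0

/-- `g` restricted to the closed unit ball is a smoothly embedded 3-ball. -/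
structure EmbBall (g : E3 → M) : Prop where
  smooth : ∃ U : Set E3, IsOpen U ∧ closedBall (0 : E3) 1 ⊆ U ∧ SmoothMapOn g U
  inj : InjOn g (closedBall (0 : E3) 1)
  imm : ∀ p ∈ closedBall (0 : E3) 1, ∀ e ∈ atlas E3 M, g p ∈ e.source →
    Function.Injective (fderiv ℝ (e ∘ g) p)

end

/-- `M` is irreducible: every smoothly embedded 2-sphere is the boundary sphere of an embedded
3-ball. -/
def Irreducible (M : Type) [TopologicalSpace M] [ChartedSpace E3 M] : Prop :=
  ∀ j : E3 → M, EmbSphere j →
    ∃ g : E3 → M, EmbBall g ∧ g '' sphere (0 : E3) 1 = j '' sphere (0 : E3) 1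

end Pool.Agent.Lib.MP_ca0971_gt.St
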